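import Pool.Agent.Helper70.BN.St1

/-!
# Project BN (MP_a2f62e_al), module RCONJ

A reflection is determined by its root: if `wa A w (al j) = al i` then `s_i (wa A w v) = wa A w (s_j v)`.
-/

set_option autoImplicit false

namespace Pool.Agent.Helper34.BN

open Pool.Agent.Helper70.BN

section

variable {l : ℕ} {A : Fin l → Fin l → ℤ} {d : Fin l → ℤ}

theorem bil_sub_left (u v w : Fin l → ℤ) : bil A d (u - v) w = bil A d u w - bil A d v w := by
  unfold bil
  rw [← Finset.sum_sub_distrib]
  refine Finset.sum_congr rfl fun i _ => ?_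
  rw [← Finset.sum_sub_distrib]
  refine Finset.sum_congr rfl fun j _ => ?_
  rw [Pi.sub_apply]
  ring

theorem bil_smul_left (c : ℤ) (v w : Fin l → ℤ) : bil A d (c • v) w = c * bil A d v w := by
  unfold bil
  rw [Finset.mul_sum]
  refine Finset.sum_congr rfl fun i _ => ?_
  rw [Finset.mul_sum]
  refine Finset.sum_congr rfl fun j _ => ?_
  rw [Pi.smul_apply, smul_eq_mul]
  ring

theorem bil_symm (h : ∀ i j, A i j * d j = A j i * d i) (v w : Fin l → ℤ) :
    bil A d v w = bil A d w v := by
  unfold bil
  rw [Finset.sum_comm]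
  refine Finset.sum_congr rfl fun i _ => ?_
  refine Finset.sum_congr rfl fun j _ => ?_
  rw [h j i]
  ring

theorem bil_al (v : Fin l → ℤ) (i : Fin l) : bil A d v (al i) = (∑ k, v k * A k i) * d i := by
  unfold bil
  rw [Finset.sum_mul]
  refine Finset.sum_congr rfl fun k _ => ?_
  rw [Finset.sum_eq_single i]
  · simp [al]
    ring
  · intro b _ hb
    simp [al, hb]
  · intro h0
    exact absurd (Finset.mem_univ i) h0

theorem sum_al (i : Fin l) : (∑ k, (al i : Fin l → ℤ) k * A k i) = A i i := by
  rw [Finset.sum_eq_single i]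
  · simp [al]
  · intro b _ hb
    simp [al, hb]
  · intro h0
    exact absurd (Finset.mem_univ i) h0

/-- a simple reflection preserves the form -/
theorem bil_sr (h2 : ∀ i, A i i = 2) (h : ∀ i j, A i j * d j = A j i * d i) (i : Fin l)
    (v w : Fin l → ℤ) : bil A d (sr A i v) (sr A i w) = bil A d v w := by
  rw [sr_eq i v, bil_sub_left, bil_smul_left, bil_symm h v, bil_symm h (al i), sr_eq i w,
    bil_sub_left, bil_sub_left, bil_smul_left, bil_smul_left, bil_al w, bil_symm h (al i) v,
    bil_al v, bil_al (al i), sum_al, h2 i, bil_symm h w v]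
  ring

theorem bil_wa (h2 : ∀ i, A i i = 2) (h : ∀ i j, A i j * d j = A j i * d i) (w : List (Fin l))
    (u v : Fin l → ℤ) : bil A d (wa A w u) (wa A w v) = bil A d u v := by
  induction w with
  | nil => rfl
  | cons i w ih => rw [wa_cons, wa_cons, bil_sr h2 h, ih]

end

theorem hRCONJ : StRCONJ := by
  intro l A d Φ R w i j hw v
  have h2 := R.diag
  have hs := R.symm
  -- the two lengths agree
  have e1 : bil A d (al i) (al i) = bil A d (al j) (al j) := by
    rw [← hw, bil_wa h2 hs]
  rw [bil_al, bil_al, sum_al, sum_al, h2 i, h2 j] at e1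
  have e2 : d i = d j := by
    linarith
  have e3 : bil A d (wa A w v) (al i) = bil A d v (al j) := by
    rw [← hw, bil_wa h2 hs]
  rw [bil_al, bil_al, e2] at e3
  have e4 : (∑ k, wa A w v k * A k i) = ∑ k, v k * A k j :=
    mul_right_cancel₀ (ne_of_gt (R.dpos j)) e3
  rw [sr_eq i, e4, sr_eq j, sub_eq_add_neg, sub_eq_add_neg, wa_add, wa_neg, wa_smul, hw]

end Pool.Agent.Helper34.BN
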